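import Pool.Agent.X99.SY.L

/-!
# First-order definability in almost all reducts of a homogeneous structure is decidable

Let `𝔹` be a homogeneous structure in a finite relational signature (the `Δ` of the problem; the order, the Ramsey property and
finite boundedness are not needed). All but a doubly exponentially small proportion of the relations `R` of arity `k` which are
first-order definable in `𝔹` are such that ALL the reducts `(B; Γ, R)` of `𝔹` are first-order interdefinable with `𝔹`, so that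
the problem `Expr_fo(B; Γ, R)` is decidable (with the constant answer yes). The same holds for all but a tiny proportion of the
relations with a prescribed number `s` of orbits, for all `s` in a large range of densities. Templates with a constant
endomorphism are included.

Definitions. From `Pool.Agent.W994.AR`: `Str σ ar B`: a structure on `B`, one relation `Set (Fin (ar i) → B)` for each symbol
`i : σ`; `autGroup 𝔹`: its automorphism group; `Homogeneous`: as in the problem; `Invar G S`: `S` is invariant under `G`;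
`InvRel G (Fin k)`: the type of all `G`-invariant relations of arity `k`; `Orb G (Fin k)`: the type of the orbits of `G` on
`k`-tuples; `expand Γ R`: the structure with the relations of `Γ` and the relations `R j`. From `Pool.Agent.X99.SY.D`:
`size R`: the number of the orbits of `k`-tuples contained in `R`. From `Pool.Agent.X99.SY.K`: `lang ar`: the relational
first-order language (of Mathlib) with symbols `i` of arity `ar i`; `struc 𝔸`: `𝔸` as a structure of this language (of Mathlib);
`FODef 𝔸 S`: `S` is first-order definable without parameters in `𝔸` (Mathlib's `Set.Definable` over the empty set).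
-/

set_option autoImplicit false

namespace Pool.Agent.Results.MP_399079_lc.AlmostAllReducts

open Pool.Agent.W994.AR Pool.Agent.X99.SY

/-- The relation defined by the formula `φ` in `𝔹`. -/
def sol {B σ : Type} {arB : σ → ℕ} (𝔹 : Str σ arB B) {V : Type} (φ : (lang arB).Formula V) : Set (V → B) :=
  let _ := struc 𝔹
  {v | φ.Realize v}

/-- `𝔸` is first-order interdefinable with `𝔹`, it has no further automorphisms, and for every enumeration of formulas over `𝔹`
it is decidable whether the relation defined by the `x`-th formula in `𝔹` is first-order definable in `𝔸`. -/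
def Full {B σ ι : Type} {arB : σ → ℕ} {ar : ι → ℕ} (𝔹 : Str σ arB B) (𝔸 : Str ι ar B) : Prop :=
  autGroup 𝔸 = autGroup 𝔹 ∧
  (∀ (n : ℕ) (S : Set (Fin n → B)), FODef 𝔸 S ↔ FODef 𝔹 S) ∧
  ∀ e : ℕ → Σ n : ℕ, (lang arB).Formula (Fin n), ComputablePred (fun x => FODef 𝔸 (sol 𝔹 (e x).2))

/-- All the reducts of `𝔹` which have `R` as a relation are interdefinable with `𝔹`. -/
def AllFull {B σ : Type} {arB : σ → ℕ} (𝔹 : Str σ arB B) {k : ℕ} (R : Set (Fin k → B)) : Prop :=
  ∀ (ι : Type) (arΓ : ι → ℕ) (Γ : Str ι arΓ B), (∀ l, FODef 𝔹 (Γ l)) →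
    Full 𝔹 (expand Γ (τ := Fin 1) (k := fun _ => k) (fun _ => R))

theorem full_of_rich {B σ : Type} [Nontrivial B] [Finite σ] {arB : σ → ℕ} (𝔹 : Str σ arB B) (h𝔹 : Homogeneous 𝔹)
    {p : ℕ} (hp : 2 ≤ p) (har : ∀ i, arB i ≤ p) {k : ℕ} {R : Set (Fin k → B)} (hR : Invar (autGroup 𝔹) R)
    (hrich : Rich (autGroup 𝔹) (Fin (p + 1)) R) : AllFull 𝔹 R := by
  classical
  intro ι arΓ Γ hΓ
  have hfin : ∀ k, Finite (Orb (autGroup 𝔹) (Fin k)) := fun k => hom_finite h𝔹 (Fin k)
  have hloc := hom_local h𝔹 p hp har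
  set 𝔸 := expand Γ (τ := Fin 1) (k := fun _ => k) (fun _ => R) with h𝔸
  have hinv : ∀ i, Invar (autGroup 𝔹) (𝔸 i) := by
    rintro (l | j)
    · exact fo_invar (hΓ l)
    · exact hR
  have haut : autGroup 𝔸 = autGroup 𝔹 :=
    le_antisymm (aut_le (M := p + 1) (fun l => by have := har l; omega) (Sum.inr 0) hrich) (le_aut hinv)
  have hall : ∀ (n : ℕ) (S : Set (Fin n → B)), Invar (autGroup 𝔹) S → FODef 𝔸 S := fun n S hS =>
    fo_all hfin (p := p) (by omega) hloc (M := p + 1) (by omega) (Sum.inr 0) hR hrich hS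
  refine ⟨haut, fun n S => ⟨fun h => ?_, fun h => hall n S (fo_invar h)⟩, fun e => ?_⟩
  · have h1 := fo_invar h
    rw [haut] at h1
    exact fo_hom h𝔹 h1
  · have h1 : ∀ x, FODef 𝔸 (sol 𝔹 (e x).2) := fun x => hall _ _ (fun g hg v hv => (realize_invar (e x).2 hg v).2 hv)
    refine ⟨fun _ => Classical.dec _, ?_⟩
    have h2 : (fun x => @decide (FODef 𝔸 (sol 𝔹 (e x).2)) (Classical.dec _)) = fun _ => true := by
      funext x
      exact decide_eq_true (h1 x)
    rw [h2]
    exact Computable.const true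

theorem result {B σ : Type} [Nontrivial B] [Finite σ] {arB : σ → ℕ} (𝔹 : Str σ arB B) (h𝔹 : Homogeneous 𝔹) :
    -- the first-order definable relations are the invariant relations, there are finitely many of each arity
    (∀ k : ℕ, Finite (InvRel (autGroup 𝔹) (Fin k)) ∧
      ∀ S : Set (Fin k → B), FODef 𝔹 S ↔ Invar (autGroup 𝔹) S) ∧
    -- all but a doubly exponentially small proportion of them
    (∃ C c δ : ℝ, 0 < C ∧ 0 < c ∧ 0 < δ ∧ ∀ k : ℕ,
      (Nat.card {R : InvRel (autGroup 𝔹) (Fin k) // ¬ AllFull 𝔹 R.1} : ℝ) ≤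
        C * Real.exp (-(δ * Real.exp (c * k))) * Nat.card (InvRel (autGroup 𝔹) (Fin k))) ∧
    -- for every density
    ∃ (k₀ : ℕ) (C c : ℝ), 0 < C ∧ 0 < c ∧ ∀ k s : ℕ, k₀ ≤ k →
      Real.exp (-(c * k)) * Nat.card (Orb (autGroup 𝔹) (Fin k)) ≤ s →
      (s : ℝ) ≤ (1 - Real.exp (-(c * k))) * Nat.card (Orb (autGroup 𝔹) (Fin k)) →
      (Nat.card {R : InvRel (autGroup 𝔹) (Fin k) // size R = s ∧ ¬ AllFull 𝔹 R.1} : ℝ) ≤
        C * Real.exp (-(1 / 8 * Real.exp (c * k))) * Nat.card {R : InvRel (autGroup 𝔹) (Fin k) // size R = s} := by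
  classical
  have := Fintype.ofFinite σ
  have hfin : ∀ k, Finite (Orb (autGroup 𝔹) (Fin k)) := fun k => hom_finite h𝔹 (Fin k)
  have hfinI : ∀ k, Finite (InvRel (autGroup 𝔹) (Fin k)) := fun k => by
    have := hfin k
    exact finite_inv _ _
  set p := max 2 (Finset.univ.sup arB) with hp
  have hp2 : 2 ≤ p := le_max_left _ _
  have har : ∀ i, arB i ≤ p := fun i =>
    (Finset.le_sup (f := arB) (Finset.mem_univ i)).trans (le_max_right _ _)
  have hrich : ∀ (k : ℕ) (R : InvRel (autGroup 𝔹) (Fin k)), Rich (autGroup 𝔹) (Fin (p + 1)) R.1 → AllFull 𝔹 R.1 :=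
    fun k R h => full_of_rich 𝔹 h𝔹 hp2 har R.2 h
  refine ⟨fun k => ⟨hfinI k, fun S => ⟨fun h => fo_invar h, fun h => fo_hom h𝔹 h⟩⟩, ?_, ?_⟩
  · obtain ⟨C, c, δ, hC, hc, hδ, h⟩ := rich_bound (autGroup 𝔹) (p + 1) (by omega) hfin
    refine ⟨C, c, δ, hC, hc, hδ, fun k => le_trans ?_ (h k)⟩
    have := hfinI k
    have h2 : Nat.card {R : InvRel (autGroup 𝔹) (Fin k) // ¬ AllFull 𝔹 R.1} ≤
        Nat.card {R : InvRel (autGroup 𝔹) (Fin k) // ¬ Rich (autGroup 𝔹) (Fin (p + 1)) R.1} := by
      apply Nat.card_le_card_of_injective (fun R => ⟨R.1, fun h => R.2 (hrich k R.1 h)⟩)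
      intro R R' h
      exact Subtype.ext (congrArg (fun x => x.1) h)
    exact_mod_cast h2
  · obtain ⟨K, r, hK⟩ := orb_card_le h𝔹
    obtain ⟨C, c, hC, hc, hb⟩ := size_bound (autGroup 𝔹) (p + 1) (by omega) hfin K r hK
    refine ⟨p + 1, C, c, hC, hc, fun k s hk hs1 hs2 => ?_⟩
    refine le_trans ?_ (hb k s hk hs1 hs2)
    have := hfinI k
    have h2 : Nat.card {R : InvRel (autGroup 𝔹) (Fin k) // size R = s ∧ ¬ AllFull 𝔹 R.1} ≤
        Nat.card {R : InvRel (autGroup 𝔹) (Fin k) // size R = s ∧ ¬ Rich (autGroup 𝔹) (Fin (p + 1)) R.1} := by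
      apply Nat.card_le_card_of_injective (fun R => ⟨R.1, R.2.1, fun h => R.2.2 (hrich k R.1 h)⟩)
      intro R R' h
      exact Subtype.ext (congrArg (fun x => x.1) h)
    exact_mod_cast h2

end Pool.Agent.Results.MP_399079_lc.AlmostAllReducts
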