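import Pool.Agent.X99.SY.M

/-!
# First-order definability in almost all injective reducts of an ordered homogeneous structure is decidable

Let `𝔹` be an infinite homogeneous structure in a finite relational signature whose automorphisms preserve a linear order of the
domain (the problem's `Δ` is ordered), and `G = Aut(𝔹)`. A relation is injective if it consists of injective tuples. For all but
a proportion `exp(K k^r - c k!)` of the injective relations `R` of arity `k` which are first-order definable in `𝔹`, ALL the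
reducts `(B; Γ, R)` of `𝔹` are first-order interdefinable with `𝔹`, so that the problem `Expr_fo(B; Γ, R)` is decidable (with
the constant answer yes). Injective relations are a vanishing proportion of all the definable relations.

Definitions. From `Pool.Agent.W994.AR`: `Str σ ar B`: a structure on `B`, one relation `Set (Fin (ar i) → B)` for each symbol
`i : σ`; `autGroup 𝔹`: its automorphism group; `Homogeneous`: as in the problem; `expand Γ R`: the structure with the relations
of `Γ` and the relations `R j`. From `Pool.Agent.X99.SY.F`: `InjOrb G k`: the type of the orbits of injective `k`-tuples;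
`InjRel G k`: the type of the `G`-invariant relations of arity `k` all of whose tuples are injective. From
`Pool.Agent.X99.SY.K`: `lang ar`: the relational first-order language (of Mathlib) with symbols `i` of arity `ar i`;
`struc 𝔸`: `𝔸` as a structure of this language (of Mathlib); `FODef 𝔸 S`: `S` is first-order definable without parameters in
`𝔸` (Mathlib's `Set.Definable` over the empty set).
-/

set_option autoImplicit false

namespace Pool.Agent.Results.MP_399079_lc.InjectiveRelations

open Pool.Agent.W994.AR Pool.Agent.X99.SY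

/-- The relation defined by the formula `φ` in `𝔹`. -/
def sol {B σ : Type} {arB : σ → ℕ} (𝔹 : Str σ arB B) {V : Type} (φ : (lang arB).Formula V) : Set (V → B) :=
  let _ := struc 𝔹
  {v | φ.Realize v}

/-- `𝔸` is first-order interdefinable with `𝔹`, it has no further automorphisms, and for every enumeration of formulas over `𝔹`
it is decidable whether the relation defined by the `x`-th formula in `𝔹` is first-order definable in `𝔸`. -/
def Full {B σ ι : Type} {arB : σ → ℕ} {ar : ι → ℕ} (𝔹 : Str σ arB B) (𝔸 : Str ι ar B) : Prop :=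
  autGroup 𝔸 = autGroup 𝔹 ∧
  (∀ (n : ℕ) (S : Set (Fin n → B)), FODef 𝔸 S ↔ FODef 𝔹 S) ∧
  ∀ e : ℕ → Σ n : ℕ, (lang arB).Formula (Fin n), ComputablePred (fun x => FODef 𝔸 (sol 𝔹 (e x).2))

/-- All the reducts of `𝔹` which have `R` as a relation are interdefinable with `𝔹`. -/
def AllFull {B σ : Type} {arB : σ → ℕ} (𝔹 : Str σ arB B) {k : ℕ} (R : Set (Fin k → B)) : Prop :=
  ∀ (ι : Type) (arΓ : ι → ℕ) (Γ : Str ι arΓ B), (∀ l, FODef 𝔹 (Γ l)) →
    Full 𝔹 (expand Γ (τ := Fin 1) (k := fun _ => k) (fun _ => R))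

theorem result {B σ : Type} [Infinite B] [LinearOrder B] [Finite σ] {arB : σ → ℕ} (𝔹 : Str σ arB B)
    (h𝔹 : Homogeneous 𝔹) (hord : ∀ g ∈ autGroup 𝔹, StrictMono g) :
    -- the number of injective definable relations
    (∀ k : ℕ, (∀ S : Set (Fin k → B), FODef 𝔹 S ↔ Invar (autGroup 𝔹) S) ∧
      Finite (InjOrb (autGroup 𝔹) k) ∧ k.factorial ≤ Nat.card (InjOrb (autGroup 𝔹) k) ∧
      Nat.card (InjRel (autGroup 𝔹) k) = 2 ^ Nat.card (InjOrb (autGroup 𝔹) k)) ∧
    -- almost all of them
    ∃ (k₀ K r : ℕ) (c : ℝ), 0 < c ∧ ∀ k : ℕ, k₀ ≤ k →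
      (Nat.card {R : InjRel (autGroup 𝔹) k // ¬ AllFull 𝔹 R.1.1} : ℝ) ≤
        Real.exp (K * (k : ℝ) ^ r - c * k.factorial) * Nat.card (InjRel (autGroup 𝔹) k) := by
  classical
  have := Fintype.ofFinite σ
  have hfin : ∀ k, Finite (Orb (autGroup 𝔹) (Fin k)) := fun k => hom_finite h𝔹 (Fin k)
  refine ⟨fun k => ⟨fun S => ⟨fun h => fo_invar h, fun h => fo_hom h𝔹 h⟩, ?_⟩, ?_⟩
  · have h1 := hfin k
    have h2 : Finite (InjOrb (autGroup 𝔹) k) := inferInstance
    refine ⟨h2, factorial_le hord k, ?_⟩
    have := Fintype.ofFinite (InjOrb (autGroup 𝔹) k)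
    rw [Nat.card_congr (injEquiv (autGroup 𝔹) k), Nat.card_eq_fintype_card, Fintype.card_set,
      Nat.card_eq_fintype_card]
  set p := max 2 (Finset.univ.sup arB) with hp
  have hp2 : 2 ≤ p := le_max_left _ _
  have har : ∀ i, arB i ≤ p := fun i =>
    (Finset.le_sup (f := arB) (Finset.mem_univ i)).trans (le_max_right _ _)
  have hloc := hom_local h𝔹 p hp2 har
  obtain ⟨K, r, hK⟩ := orb_card_le h𝔹
  set a : ℕ := (Finset.range (p + 1)).sup (fun q => Nat.card (Orb (autGroup 𝔹) (Fin q))) with ha
  refine ⟨max p (a + 1), K * (a + 1), r, (2⁻¹ : ℝ) ^ (a + 1) / (a + 1) ^ 2, by positivity, fun k hk => ?_⟩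
  have hkp : p ≤ k := le_trans (le_max_left _ _) hk
  have hka : a < k.factorial := lt_of_lt_of_le (le_trans (le_max_right _ _) hk) (Nat.self_le_factorial k)
  have hfk := hfin k
  have hfinO : Finite (InjOrb (autGroup 𝔹) k) := inferInstance
  have hfinR : Finite (InjRel (autGroup 𝔹) k) := Finite.of_equiv _ (injEquiv (autGroup 𝔹) k).symm
  have hgood : ∀ R : InjRel (autGroup 𝔹) k, Sep (autGroup 𝔹) a R.1.1 → AllFull 𝔹 R.1.1 := by
    intro R hR ι arΓ Γ hΓ
    set 𝔸 := expand Γ (τ := Fin 1) (k := fun _ => k) (fun _ => R.1.1) with h𝔸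
    have hpp : ∀ q, q ≤ p → ∀ S : Set (Fin q → B), Invar (autGroup 𝔹) S → (∀ v ∈ S, Function.Injective v) →
        PPDef 𝔸 S := by
      intro q hq S hS hSi
      have hfq := hfin q
      have hqa : Nat.card (Orb (autGroup 𝔹) (Fin q)) ≤ a :=
        Finset.le_sup (f := fun q => Nat.card (Orb (autGroup 𝔹) (Fin q))) (Finset.mem_range.2 (by omega))
      exact (pp_all_inj hord Γ (by omega) (by simpa using hq.trans hkp) hka hqa R.1.2 R.2 hR hS hSi).toPPDef
    have hall : ∀ (n : ℕ) (S : Set (Fin n → B)), Invar (autGroup 𝔹) S → FODef 𝔸 S := fun n S hS =>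
      fo_all_of_inj hfin hloc hpp hS
    have hinv : ∀ i, Invar (autGroup 𝔹) (𝔸 i) := by
      rintro (l | j)
      · exact fo_invar (hΓ l)
      · exact R.1.2
    have haut : autGroup 𝔸 = autGroup 𝔹 :=
      le_antisymm (le_aut (fun i => fo_invar (hall _ (𝔹 i) (fun g hg v hv => (hg i v).1 hv)))) (le_aut hinv)
    refine ⟨haut, fun n S => ⟨fun h => ?_, fun h => hall n S (fo_invar h)⟩, fun e => ?_⟩
    · have h1 := fo_invar h
      rw [haut] at h1
      exact fo_hom h𝔹 h1
    · have h1 : ∀ x, FODef 𝔸 (sol 𝔹 (e x).2) := fun x =>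
        hall _ _ (fun g hg v hv => (realize_invar (e x).2 hg v).2 hv)
      refine ⟨fun _ => Classical.dec _, ?_⟩
      have h2 : (fun x => @decide (FODef 𝔸 (sol 𝔹 (e x).2)) (Classical.dec _)) = fun _ => true := by
        funext x
        exact decide_eq_true (h1 x)
      rw [h2]
      exact Computable.const true
  have hle : Nat.card {R : InjRel (autGroup 𝔹) k // ¬ AllFull 𝔹 R.1.1} ≤
      Nat.card {R : InjRel (autGroup 𝔹) k // ¬ Sep (autGroup 𝔹) a R.1.1} := by
    apply Nat.card_le_card_of_injective (fun R => ⟨R.1, fun h => R.2 (hgood R.1 h)⟩)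
    intro R R' h
    exact Subtype.ext (congrArg (fun x => x.1) h)
  have hN : (Nat.card (Orb (autGroup 𝔹) (Fin k)) : ℝ) ≤ Real.exp (K * (k : ℝ) ^ r) := by
    have := hK k (by omega)
    linarith
  calc (Nat.card {R : InjRel (autGroup 𝔹) k // ¬ AllFull 𝔹 R.1.1} : ℝ)
      ≤ Nat.card {R : InjRel (autGroup 𝔹) k // ¬ Sep (autGroup 𝔹) a R.1.1} := by exact_mod_cast hle
    _ ≤ (Nat.card (Orb (autGroup 𝔹) (Fin k)) : ℝ) ^ (a + 1) *
      Real.exp (-((2⁻¹ : ℝ) ^ (a + 1) * (k.factorial / (a + 1) ^ 2))) * Nat.card (InjRel (autGroup 𝔹) k) :=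
        sep_count hord a k
    _ ≤ Real.exp (K * (k : ℝ) ^ r) ^ (a + 1) *
      Real.exp (-((2⁻¹ : ℝ) ^ (a + 1) * (k.factorial / (a + 1) ^ 2))) * Nat.card (InjRel (autGroup 𝔹) k) := by
        apply mul_le_mul_of_nonneg_right _ (Nat.cast_nonneg _)
        apply mul_le_mul_of_nonneg_right _ (Real.exp_pos _).le
        exact pow_le_pow_left₀ (Nat.cast_nonneg _) hN _
    _ = _ := by
        rw [← Real.exp_nat_mul, ← Real.exp_add]
        congr 2
        push_cast
        ring

end Pool.Agent.Results.MP_399079_lc.InjectiveRelations
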